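import Mathlib
import Pool.Agent.U892.PD.Stm

/-!
# Package FRAME of project PD (MP_ae5b4e_an)

For every point `q` of the domain there is a line through `q` which is tangent to a nearby leaf and
meets the leaf of `q` on the other side of the point of tangency.
-/

set_option autoImplicit false

open Filter Topology Set
open scoped ContDiff

namespace Pool.Agent.U430.PD

open Pool.Agent.U892.PD

/-- The one dimensional statement: a convex function with small negative slope at `0`. -/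
theorem oneD (h h1 h2 : ℝ → ℝ) (δ k : ℝ) (hδ : 0 < δ) (hk : 0 < k)
    (d1 : ∀ s ∈ Icc 0 δ, HasDerivAt h (h1 s) s) (d2 : ∀ s ∈ Icc 0 δ, HasDerivAt h1 (h2 s) s)
    (hh2 : ∀ s ∈ Icc 0 δ, k ≤ h2 s) (n0 : h1 0 < 0) (n1 : -h1 0 < k * δ / 2) :
    ∃ s1 s2 : ℝ, 0 < s1 ∧ s1 < s2 ∧ s2 < δ ∧ h1 s1 = 0 ∧ h s2 = h 0 ∧ 0 < h1 s2 := by
  have c1 : ContinuousOn h (Icc 0 δ) := fun s hs => (d1 s hs).continuousAt.continuousWithinAt
  have c2 : ContinuousOn h1 (Icc 0 δ) := fun s hs => (d2 s hs).continuousAt.continuousWithinAt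
  have m1 : MonotoneOn (fun s => h1 s - k * s) (Icc 0 δ) := by
    apply monotoneOn_of_deriv_nonneg (convex_Icc 0 δ)
    · exact c2.sub (by fun_prop)
    · intro s hs
      rw [interior_Icc] at hs
      exact ((d2 s (Ioo_subset_Icc_self hs)).differentiableAt.sub
        (by fun_prop)).differentiableWithinAt
    · intro s hs
      rw [interior_Icc] at hs
      have hs' := Ioo_subset_Icc_self hs
      have hd : HasDerivAt (fun s => h1 s - k * s) (h2 s - k * 1) s :=
        (d2 s hs').sub ((hasDerivAt_id s).const_mul k)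
      rw [hd.deriv]
      have := hh2 s hs'
      linarith
  have hge : ∀ s ∈ Icc 0 δ, h1 0 + k * s ≤ h1 s := by
    intro s hs
    have := m1 (left_mem_Icc.2 hδ.le) hs hs.1
    simp only [mul_zero, sub_zero] at this
    linarith
  have hst : ∀ s ∈ Icc 0 δ, ∀ t ∈ Icc 0 δ, s < t → h1 s < h1 t := by
    intro s hs t ht hst
    have := m1 hs ht hst.le
    simp only at this
    nlinarith
  have m2 : MonotoneOn (fun s => h s - h1 0 * s - k / 2 * s ^ 2) (Icc 0 δ) := by
    have hd : ∀ s ∈ Icc 0 δ, HasDerivAt (fun s => h s - h1 0 * s - k / 2 * s ^ 2)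
        (h1 s - h1 0 * 1 - k / 2 * (2 * s)) s := by
      intro s hs
      have e1 := (d1 s hs).sub ((hasDerivAt_id s).const_mul (h1 0))
      have e2 : HasDerivAt (fun s : ℝ => k / 2 * s ^ 2) (k / 2 * (2 * s)) s := by
        have := (hasDerivAt_pow 2 s).const_mul (k / 2)
        simpa using this
      exact e1.sub e2
    apply monotoneOn_of_deriv_nonneg (convex_Icc 0 δ)
    · exact fun s hs => (hd s hs).continuousAt.continuousWithinAt
    · intro s hs
      rw [interior_Icc] at hs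
      exact (hd s (Ioo_subset_Icc_self hs)).differentiableAt.differentiableWithinAt
    · intro s hs
      rw [interior_Icc] at hs
      have hs' := Ioo_subset_Icc_self hs
      rw [(hd s hs').deriv]
      have := hge s hs'
      linarith
  have hδm : δ ∈ Icc 0 δ := right_mem_Icc.2 hδ.le
  have h0m : (0 : ℝ) ∈ Icc 0 δ := left_mem_Icc.2 hδ.le
  have hbig : h 0 < h δ := by
    have := m2 h0m hδm hδ.le
    simp only at this
    nlinarith
  have hpos : 0 < h1 δ := by
    have := hge δ hδm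
    nlinarith
  obtain ⟨s1, hs1, e1⟩ := intermediate_value_Ioo hδ.le c2 ⟨n0, hpos⟩
  have hs1' := Ioo_subset_Icc_self hs1
  have hlow : h s1 < h 0 := by
    have hanti : StrictAntiOn h (Icc 0 s1) := by
      apply strictAntiOn_of_deriv_neg (convex_Icc 0 s1)
      · exact c1.mono (Icc_subset_Icc_right hs1.2.le)
      · intro s hs
        rw [interior_Icc] at hs
        have hs' : s ∈ Icc 0 δ := ⟨hs.1.le, (hs.2.trans hs1.2).le⟩
        rw [(d1 s hs').deriv]
        have := hst s hs' s1 hs1' hs.2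
        rw [e1] at this
        exact this
    exact hanti (left_mem_Icc.2 hs1.1.le) (right_mem_Icc.2 hs1.1.le) hs1.1
  obtain ⟨s2, hs2, e2⟩ := intermediate_value_Ioo hs1.2.le
    (c1.mono (Icc_subset_Icc_left hs1.1.le)) ⟨hlow, hbig⟩
  refine ⟨s1, s2, hs1.1, hs2.1, hs2.2, e1, e2, ?_⟩
  have := hst s1 hs1' s2 ⟨(hs1.1.trans hs2.1).le, hs2.2.le⟩ hs2.1
  rw [e1] at this
  exact this

/-- derivative along a line -/
theorem line1 {Ω : Set (ℝ × ℝ)} {F : ℝ × ℝ → ℝ} (hF : Foliation Ω F) (p v : ℝ × ℝ) (s : ℝ)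
    (h : p + s • v ∈ Ω) :
    HasDerivAt (fun s : ℝ => F (p + s • v)) (fderiv ℝ F (p + s • v) v) s := by
  have h1 : HasFDerivAt F (fderiv ℝ F (p + s • v)) (p + s • v) :=
    ((hF.smooth _ h).differentiableAt (by simp)).hasFDerivAt
  have h2 : HasDerivAt (fun s : ℝ => p + s • v) v s := by
    have := ((hasDerivAt_id s).smul_const v).const_add p
    simpa using this
  exact h1.comp_hasDerivAt s h2

/-- second derivative along a line -/
theorem line2 {Ω : Set (ℝ × ℝ)} {F : ℝ × ℝ → ℝ} (hF : Foliation Ω F) (p v : ℝ × ℝ) (s : ℝ)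
    (h : p + s • v ∈ Ω) :
    HasDerivAt (fun s : ℝ => fderiv ℝ F (p + s • v) v)
      (fderiv ℝ (fderiv ℝ F) (p + s • v) v v) s := by
  have h0 : ContDiffAt ℝ 1 (fderiv ℝ F) (p + s • v) :=
    (hF.smooth _ h).fderiv_right (m := 1) (by norm_cast)
  have h1 : HasFDerivAt (fderiv ℝ F) (fderiv ℝ (fderiv ℝ F) (p + s • v)) (p + s • v) :=
    (h0.differentiableAt (by simp)).hasFDerivAt
  have h2 : HasDerivAt (fun s : ℝ => p + s • v) v s := by
    have := ((hasDerivAt_id s).smul_const v).const_add p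
    simpa using this
  have h3 := h1.comp_hasDerivAt s h2
  exact h3.clm_apply (hasDerivAt_const s v) |>.congr_deriv (by simp)

/-- the second derivative at `0` -/
theorem second {Ω : Set (ℝ × ℝ)} {F : ℝ × ℝ → ℝ} (hF : Foliation Ω F) (p v : ℝ × ℝ)
    (h : p ∈ Ω) :
    iteratedDeriv 2 (fun s : ℝ => F (p + s • v)) 0 = fderiv ℝ (fderiv ℝ F) p v v := by
  have hc : ContinuousAt (fun s : ℝ => p + s • v) 0 := by fun_prop
  have hev : ∀ᶠ s : ℝ in 𝓝 0, p + s • v ∈ Ω :=
    hc (by simpa using hF.isOpen.mem_nhds h)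
  have h1 : deriv (fun s : ℝ => F (p + s • v)) =ᶠ[𝓝 0] fun s => fderiv ℝ F (p + s • v) v := by
    filter_upwards [hev] with s hs
    exact (line1 hF p v s hs).deriv
  rw [iteratedDeriv_succ, iteratedDeriv_one, h1.deriv_eq]
  have := (line2 hF p v 0 (by simpa using h)).deriv
  simpa using this

/-- the basis -/
theorem basis (L : ℝ × ℝ →L[ℝ] ℝ) (hL : L ≠ 0) :
    ∃ e1 e2 : ℝ × ℝ, L e1 = 0 ∧ 0 < L e2 ∧ e1.1 * e2.2 - e1.2 * e2.1 ≠ 0 := by
  have lin : ∀ v : ℝ × ℝ, L v = v.1 * L (1, 0) + v.2 * L (0, 1) := by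
    intro v
    have hv : v = v.1 • ((1 : ℝ), (0 : ℝ)) + v.2 • ((0 : ℝ), (1 : ℝ)) := by ext <;> simp
    conv_lhs => rw [hv, map_add, map_smul, map_smul]
    simp
  set A := L (1, 0) with hA
  set B := L (0, 1) with hB
  have hD : 0 < A ^ 2 + B ^ 2 := by
    by_contra hcon
    have hA0 : A = 0 := by nlinarith [sq_nonneg A, sq_nonneg B]
    have hB0 : B = 0 := by nlinarith [sq_nonneg A, sq_nonneg B]
    apply hL
    ext
    · simp [← hA, hA0]
    · simp [← hB, hB0]
  refine ⟨(-B, A), (A, B), ?_, ?_, ?_⟩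
  · rw [lin]; simp only; ring
  · rw [lin]; simp only; nlinarith
  · simp only
    intro h
    nlinarith

theorem t_FRAME : S_FRAME := by
  intro Ω F hF hP q hq
  obtain ⟨e1, e2, he1, he2, hdet⟩ := basis (fderiv ℝ F q) (hF.regular q hq)
  have he10 : e1 ≠ 0 := by
    rintro rfl
    apply hdet; simp
  have hκ : fderiv ℝ (fderiv ℝ F) q e1 e1 ≠ 0 := by
    rw [← second hF q e1 hq]
    exact hF.curved q hq e1 he10 he1
  obtain ⟨σ, hσ2, hσκ⟩ : ∃ σ : ℝ, σ * σ = 1 ∧ 0 < σ * fderiv ℝ (fderiv ℝ F) q e1 e1 := by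
    rcases lt_or_gt_of_ne hκ with h | h
    · exact ⟨-1, by norm_num, by linarith⟩
    · exact ⟨1, by norm_num, by linarith⟩
  set k : ℝ := σ * fderiv ℝ (fderiv ℝ F) q e1 e1 / 2 with hk
  have hkpos : 0 < k := by positivity
  -- continuity
  have hcont1 : ContinuousAt (fun z : ℝ × ℝ => q + z.1 • (e1 + z.2 • e2)) (0, 0) := by fun_prop
  have hcont2 : ContinuousAt (fun z : ℝ × ℝ => e1 + z.2 • e2) (0, 0) := by fun_prop
  have hval : (fun z : ℝ × ℝ => q + z.1 • (e1 + z.2 • e2)) (0, 0) = q := by simp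
  have hC1 : ContDiffAt ℝ 1 (fderiv ℝ F) q := (hF.smooth _ hq).fderiv_right (m := 1) (by norm_cast)
  have hC0 : ContinuousAt (fderiv ℝ (fderiv ℝ F)) q :=
    (hC1.fderiv_right (m := 0) (by norm_num)).continuousAt
  have hC0' : ContinuousAt (fderiv ℝ (fderiv ℝ F))
      ((fun z : ℝ × ℝ => q + z.1 • (e1 + z.2 • e2)) (0, 0)) := by rw [hval]; exact hC0
  have hcont3 : ContinuousAt (fun z : ℝ × ℝ =>
      fderiv ℝ (fderiv ℝ F) (q + z.1 • (e1 + z.2 • e2))) (0, 0) :=
    ContinuousAt.comp (f := fun z : ℝ × ℝ => q + z.1 • (e1 + z.2 • e2)) hC0' hcont1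
  have hcont4 : ContinuousAt (fun z : ℝ × ℝ =>
      σ * fderiv ℝ (fderiv ℝ F) (q + z.1 • (e1 + z.2 • e2)) (e1 + z.2 • e2) (e1 + z.2 • e2))
      (0, 0) :=
    continuousAt_const.mul ((hcont3.clm_apply hcont2).clm_apply hcont2)
  have hev1 : ∀ᶠ z : ℝ × ℝ in 𝓝 (0, 0), k <
      σ * fderiv ℝ (fderiv ℝ F) (q + z.1 • (e1 + z.2 • e2)) (e1 + z.2 • e2) (e1 + z.2 • e2) := by
    apply hcont4.eventually_const_lt
    simp only [zero_smul, add_zero]
    linarith
  have hev2 : ∀ᶠ z : ℝ × ℝ in 𝓝 (0, 0), q + z.1 • (e1 + z.2 • e2) ∈ Ω :=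
    hcont1 (by rw [hval]; exact hF.isOpen.mem_nhds hq)
  obtain ⟨δ₀, hδ₀, hball⟩ := Metric.eventually_nhds_iff.1 (hev1.and hev2)
  obtain ⟨r, hr, hPr⟩ := hP q hq
  set M : ℝ := ‖e1‖ + ‖e2‖ + 1 with hM
  have hMpos : 0 < M := by positivity
  set δ : ℝ := min (δ₀ / 2) (r / (2 * M)) with hδdef
  have hδ : 0 < δ := lt_min (by positivity) (by positivity)
  have hδ1 : δ < δ₀ := (min_le_left _ _).trans_lt (by linarith)
  have hδ2 : δ * M < r := by
    have h1 : δ ≤ r / (2 * M) := min_le_right _ _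
    have h2 : r / (2 * M) * M = r / 2 := by field_simp
    nlinarith
  set D : ℝ := fderiv ℝ F q e2 with hDdef
  set t : ℝ := min (min (δ₀ / 2) 1) (k * δ / (4 * D)) with htdef
  have ht : 0 < t := lt_min (lt_min (by positivity) one_pos) (by positivity)
  have ht1 : t < δ₀ := ((min_le_left _ _).trans (min_le_left _ _)).trans_lt (by linarith)
  have ht2 : t ≤ 1 := (min_le_left _ _).trans (min_le_right _ _)
  have ht3 : t * D < k * δ / 2 := by
    have h1 : t ≤ k * δ / (4 * D) := min_le_right _ _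
    have h2 : k * δ / (4 * D) * D = k * δ / 4 := by field_simp
    nlinarith [mul_pos hkpos hδ]
  have hσabs : |σ| = 1 := by
    have : |σ| * |σ| = 1 := by rw [← abs_mul, hσ2, abs_one]
    nlinarith [abs_nonneg σ]
  set ε : ℝ := -σ * t with hε
  have hεabs : |ε| = t := by rw [hε, abs_mul, abs_neg, hσabs, one_mul, abs_of_pos ht]
  set u : ℝ × ℝ := e1 + ε • e2 with hu
  have huM : ‖u‖ ≤ M := by
    calc ‖u‖ ≤ ‖e1‖ + ‖ε • e2‖ := norm_add_le _ _
      _ = ‖e1‖ + |ε| * ‖e2‖ := by rw [norm_smul, Real.norm_eq_abs]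
      _ ≤ M := by
        rw [hεabs]
        nlinarith [norm_nonneg e2]
  have hin : ∀ s ∈ Icc 0 δ, k < σ * fderiv ℝ (fderiv ℝ F) (q + s • u) u u ∧ q + s • u ∈ Ω := by
    intro s hs
    have hd : dist ((s, ε) : ℝ × ℝ) (0, 0) < δ₀ := by
      rw [Prod.dist_eq]
      simp only [Real.dist_eq, sub_zero]
      rw [abs_of_nonneg hs.1, hεabs]
      exact max_lt (hs.2.trans_lt hδ1) ht1
    exact hball hd
  have hfu : fderiv ℝ F q u = ε * D := by
    rw [hu, map_add, map_smul, he1, zero_add, smul_eq_mul]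
  obtain ⟨s1, s2, hs1, hs12, hs2, z1, z2, z3⟩ := oneD (fun s => σ * F (q + s • u))
    (fun s => σ * fderiv ℝ F (q + s • u) u)
    (fun s => σ * fderiv ℝ (fderiv ℝ F) (q + s • u) u u) δ k hδ hkpos
    (fun s hs => (line1 hF q u s (hin s hs).2).const_mul σ)
    (fun s hs => (line2 hF q u s (hin s hs).2).const_mul σ)
    (fun s hs => (hin s hs).1.le)
    (by
      simp only [zero_smul, add_zero]
      rw [hfu, hε]
      nlinarith [mul_pos ht he2])
    (by
      simp only [zero_smul, add_zero]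
      rw [hfu, hε]
      have : -(σ * (-σ * t * D)) = t * D := by linear_combination (t * D) * hσ2
      rw [this]
      exact ht3)
  have hσ0 : σ ≠ 0 := by
    rintro rfl
    simp at hσ2
  simp only [zero_smul, add_zero] at z1 z2 z3
  have z1' : fderiv ℝ F (q + s1 • u) u = 0 := by
    rcases mul_eq_zero.1 z1 with h | h
    · exact absurd h hσ0
    · exact h
  have z2' : F (q + s2 • u) = F q := mul_left_cancel₀ hσ0 z2
  have hn0 : σ * fderiv ℝ F q u < 0 := by
    rw [hfu, hε]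
    nlinarith [mul_pos ht he2]
  have hs1m : s1 ∈ Icc 0 δ := ⟨hs1.le, (hs12.trans hs2).le⟩
  have hs2m : s2 ∈ Icc 0 δ := ⟨(hs1.trans hs12).le, hs2.le⟩
  have ho : q + s1 • u ∈ Ω := (hin s1 hs1m).2
  have hdet' : u.1 * e2.2 - u.2 * e2.1 ≠ 0 := by
    have : u.1 * e2.2 - u.2 * e2.1 = e1.1 * e2.2 - e1.2 * e2.1 := by
      rw [hu]; simp only [Prod.fst_add, Prod.snd_add, Prod.smul_fst, Prod.smul_snd, smul_eq_mul]
      ring
    rw [this]; exact hdet
  have hu0 : u ≠ 0 := by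
    intro h0
    apply hdet'
    rw [h0]; simp
  set o : ℝ × ℝ := q + s1 • u with hodef
  have hcd : ∀ p : ℝ × ℝ, o + p.1 • u + p.2 • e2 ∈ Ω → ContDiffAt ℝ 21 (coord F o u e2) p := by
    intro p hp
    have h1 : ContDiffAt ℝ 21 F ((fun p : ℝ × ℝ => o + p.1 • u + p.2 • e2) p) :=
      (hF.smooth _ hp).of_le (WithTop.coe_le_coe.2 le_top)
    have h2 : ContDiffAt ℝ 21 (fun p : ℝ × ℝ => o + p.1 • u + p.2 • e2) p := by fun_prop
    exact h1.comp p h2
  have hfd : ∀ p : ℝ × ℝ, o + p.1 • u + p.2 • e2 ∈ Ω → ∀ a b : ℝ,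
      fderiv ℝ (coord F o u e2) p (a, b) =
        fderiv ℝ F (o + p.1 • u + p.2 • e2) (a • u + b • e2) := by
    intro p hp a b
    have h1 : HasFDerivAt F (fderiv ℝ F (o + p.1 • u + p.2 • e2)) (o + p.1 • u + p.2 • e2) :=
      ((hF.smooth _ hp).differentiableAt (by simp)).hasFDerivAt
    have h2 : HasFDerivAt (fun p : ℝ × ℝ => o + p.1 • u + p.2 • e2)
        ((ContinuousLinearMap.fst ℝ ℝ ℝ).smulRight u +
          (ContinuousLinearMap.snd ℝ ℝ ℝ).smulRight e2) p :=
      ((hasFDerivAt_fst.smul_const u).const_add o).add (hasFDerivAt_snd.smul_const e2)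
    have h3 : HasFDerivAt (coord F o u e2) _ p := HasFDerivAt.comp p h1 h2
    rw [h3.fderiv]
    simp
  have hX1 : o + (-s1) • u + (0 : ℝ) • e2 = q := by
    rw [hodef]; module
  have hX2 : o + (s2 - s1) • u + (0 : ℝ) • e2 = q + s2 • u := by
    rw [hodef]; module
  have hX0 : o + (0 : ℝ) • u + (0 : ℝ) • e2 = o := by module
  refine ⟨o, u, e2, -s1, s2 - s1, hdet', ?_, ?_, ?_, ?_, ?_, ?_, ?_, ?_, ?_, δ, ?_, ?_, ?_⟩
  · rw [hodef]; module
  · exact mul_neg_of_neg_of_pos (by linarith) (by linarith)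
  · show F (o + (-s1) • u + (0 : ℝ) • e2) = F (o + (s2 - s1) • u + (0 : ℝ) • e2)
    rw [hX1, hX2, z2']
  · exact hcd (0, 0) (by simp only; rw [hX0]; exact ho)
  · exact hcd (-s1, 0) (by simp only; rw [hX1]; exact hq)
  · exact hcd (s2 - s1, 0) (by simp only; rw [hX2]; exact (hin s2 hs2m).2)
  · rw [hfd (0, 0) (by simp only; rw [hX0]; exact ho)]
    simp only [one_smul, zero_smul, add_zero]
    exact z1'
  · have : (fun s : ℝ => coord F o u e2 (s, 0)) = fun s : ℝ => F (o + s • u) := by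
      funext s; simp [coord]
    rw [this]
    exact hF.curved o ho u hu0 z1'
  · rw [hfd (-s1, 0) (by simp only; rw [hX1]; exact hq),
      hfd (s2 - s1, 0) (by simp only; rw [hX2]; exact (hin s2 hs2m).2)]
    simp only
    rw [hX1, hX2, one_smul, zero_smul, add_zero]
    have hprod : (σ * fderiv ℝ F q u) * (σ * fderiv ℝ F (q + s2 • u) u) < 0 :=
      mul_neg_of_neg_of_pos hn0 z3
    have : (σ * fderiv ℝ F q u) * (σ * fderiv ℝ F (q + s2 • u) u) =
        fderiv ℝ F q u * fderiv ℝ F (q + s2 • u) u := by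
      linear_combination (fderiv ℝ F q u * fderiv ℝ F (q + s2 • u) u) * hσ2
    rw [this] at hprod
    exact hprod
  · rw [abs_neg, abs_of_pos hs1]; linarith
  · rw [abs_of_pos (by linarith)]; linarith
  · have g1 : ∀ᶠ z : (ℝ × ℝ) × ℝ in 𝓝 ((0, 0), 0), o + z.1.1 • u + z.1.2 • e2 ∈ Ω := by
      have hc : ContinuousAt (fun z : (ℝ × ℝ) × ℝ => o + z.1.1 • u + z.1.2 • e2)
          ((0, 0), 0) := by fun_prop
      exact hc (by simpa using hF.isOpen.mem_nhds ho)
    have g2 : ∀ᶠ z : (ℝ × ℝ) × ℝ in 𝓝 ((0, 0), 0), dist (o + z.1.1 • u + z.1.2 • e2) q < r := by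
      have hc : ContinuousAt (fun z : (ℝ × ℝ) × ℝ => dist (o + z.1.1 • u + z.1.2 • e2) q)
          ((0, 0), 0) := by fun_prop
      apply hc.eventually_lt_const
      simp only [zero_smul, add_zero]
      rw [hodef, dist_eq_norm, add_sub_cancel_left, norm_smul, Real.norm_eq_abs, abs_of_pos hs1]
      have : s1 * ‖u‖ ≤ δ * M := mul_le_mul hs1m.2 huM (norm_nonneg _) hδ.le
      linarith
    have g3 : ∀ᶠ z : (ℝ × ℝ) × ℝ in 𝓝 ((0, 0), 0), δ * ‖u + z.2 • e2‖ < r := by
      have hc : ContinuousAt (fun z : (ℝ × ℝ) × ℝ => δ * ‖u + z.2 • e2‖) ((0, 0), 0) := by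
        fun_prop
      apply hc.eventually_lt_const
      simp only [zero_smul, add_zero]
      have : δ * ‖u‖ ≤ δ * M := mul_le_mul_of_nonneg_left huM hδ.le
      linarith
    filter_upwards [g1, g2, g3] with z hz1 hz2 hz3 hz4
    rw [hfd z.1 hz1, one_smul] at hz4
    set v : ℝ × ℝ := u + z.2 • e2 with hv
    have hv0 : v ≠ 0 := by
      intro h0
      apply hdet'
      have h1 : u = -(z.2 • e2) := eq_neg_of_add_eq_zero_left h0
      rw [h1]
      simp only [Prod.fst_neg, Prod.snd_neg, Prod.smul_fst, Prod.smul_snd, smul_eq_mul]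
      ring
    have hn : 0 < ‖v‖ := norm_pos_iff.2 hv0
    obtain ⟨m, hm⟩ := hPr _ hz1 hz2 (‖v‖⁻¹ • v)
      (by rw [norm_smul, norm_inv, norm_norm, inv_mul_cancel₀ hn.ne'])
      (by rw [map_smul, hz4, smul_zero])
    refine ⟨m * ‖v‖, ?_⟩
    intro s t' hs0 hsδ ht0 htδ heq
    have e1 : ∀ s : ℝ, (s * ‖v‖) • (‖v‖⁻¹ • v) = s • v := by
      intro s
      rw [smul_smul, mul_assoc, mul_inv_cancel₀ hn.ne', mul_one]
    have hb1 : s * ‖v‖ < r := lt_of_le_of_lt (mul_le_mul_of_nonneg_right hsδ.le hn.le) hz3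
    have hb2 : t' * ‖v‖ < r := lt_of_le_of_lt (mul_le_mul_of_nonneg_right htδ.le hn.le) hz3
    have key := hm (s * ‖v‖) (t' * ‖v‖) (mul_pos hs0 hn) hb1 (mul_pos ht0 hn) hb2 (by
      rw [e1, e1]
      have c1 : coord F o u e2 (z.1 + s • (1, z.2)) = F (o + z.1.1 • u + z.1.2 • e2 + s • v) := by
        unfold coord
        congr 1
        rw [hv]
        simp only [Prod.fst_add, Prod.snd_add, Prod.smul_fst, Prod.smul_snd, smul_eq_mul]
        module
      have c2 : coord F o u e2 (z.1 - t' • (1, z.2)) =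
          F (o + z.1.1 • u + z.1.2 • e2 - t' • v) := by
        unfold coord
        congr 1
        rw [hv]
        simp only [Prod.fst_sub, Prod.snd_sub, Prod.smul_fst, Prod.smul_snd, smul_eq_mul]
        module
      rw [← c1, ← c2]
      exact heq)
    rw [← key]
    field_simp

end Pool.Agent.U430.PD
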